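import Mathlib

/-!
# Rank hypercontractivity, sharp form: the scalar rows

Text: /team-store/ec946a_sharp_h72.md.  All sums are unnormalised.
-/

set_option autoImplicit false

namespace Pool.Agent.RHC

open Finset

/-- HQ: the 2 x 2 form for exponents at most two. -/
def HQ : Prop := ∀ q : ℝ, 1 < q → q ≤ 2 → ∀ x1 x2 t1 t2 : ℝ, 0 ≤ x1 → 0 ≤ x2 → 0 ≤ t1 → 0 ≤ t2 →
  t1 + t2 ≤ 1 →
  (q - 1) * 2 ^ (2 / q - 1) * (x1 * t1 ^ (2 / q - 1) + x2 * t2 ^ (2 / q - 1)) ≤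
    (q - 1) * (x1 + x2) + (2 - q) * (√(x1 * t1) - √(x2 * t2)) ^ 2

/-- HP: the 2 x 2 form for exponents at least two. -/
def HP : Prop := ∀ p : ℝ, 2 ≤ p → ∀ x1 x2 t1 t2 : ℝ, 0 ≤ x1 → 0 ≤ x2 → 0 ≤ t1 → 0 ≤ t2 →
  t1 + t2 ≤ 1 → (t1 = 0 → x1 = 0) → (t2 = 0 → x2 = 0) →
  (p - 1) * (x1 + x2) - (p - 2) * (√(x1 * t1) - √(x2 * t2)) ^ 2 ≤
    (p - 1) * 2 ^ (2 / p - 1) * (x1 * t1 ^ (2 / p - 1) + x2 * t2 ^ (2 / p - 1))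

/-- DIQ: signed two-point inequality in `L^q`, `1 < q ≤ 2` (from HQ). -/
def DIQ : Prop := ∀ q : ℝ, 1 < q → q ≤ 2 → ∀ (ι : Type) (s : Finset ι) (u v : ι → ℝ),
  (∀ i ∈ s, |v i| ≤ u i) →
  (∑ i ∈ s, u i ^ q) ^ (2 / q) + (q - 1) * 2 ^ (2 / q - 1) *
      ((∑ i ∈ s, (max (v i) 0) ^ q) ^ (2 / q) + (∑ i ∈ s, (max (-v i) 0) ^ q) ^ (2 / q)) ≤
    ((∑ i ∈ s, (u i + v i) ^ q) ^ (2 / q) + (∑ i ∈ s, (u i - v i) ^ q) ^ (2 / q)) / 2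

/-- DIP: signed two-point inequality in `L^p`, `2 ≤ p` (from HP). -/
def DIP : Prop := ∀ p : ℝ, 2 ≤ p → ∀ (ι : Type) (s : Finset ι) (u v : ι → ℝ),
  (∀ i ∈ s, |v i| ≤ u i) →
  ((∑ i ∈ s, (u i + v i) ^ p) ^ (2 / p) + (∑ i ∈ s, (u i - v i) ^ p) ^ (2 / p)) / 2 ≤
    (∑ i ∈ s, u i ^ p) ^ (2 / p) + (p - 1) * 2 ^ (2 / p - 1) *
      ((∑ i ∈ s, (max (v i) 0) ^ p) ^ (2 / p) + (∑ i ∈ s, (max (-v i) 0) ^ p) ^ (2 / p))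

end Pool.Agent.RHC
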