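import Mathlib
import Pool.Agent.Lib.RHC.Defs

/-!
# Rank hypercontractivity, sharp form: the rows HQ and HP
-/

set_option autoImplicit false

namespace Pool.Agent.RHC.Fx

open Finset

/-- a binary form with one negative coefficient -/
lemma form {al1 al2 be t1 t2 a1 a2 : ℝ} (h2 : 0 ≤ al2) (hbe : 0 ≤ be)
    (ht1 : 0 ≤ t1) (ht2 : 0 ≤ t2) (hd1 : al1 ≤ be * t1)
    (hdet : al1 * al2 + al1 * (be * t2) ≤ be * t1 * al2) :
    0 ≤ al2 * a2 ^ 2 - al1 * a1 ^ 2 + be * (√t1 * a1 - √t2 * a2) ^ 2 := by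
  have e1 : √t1 ^ 2 = t1 := Real.sq_sqrt ht1
  have e2 : √t2 ^ 2 = t2 := Real.sq_sqrt ht2
  set A := be * t1 - al1 with hA
  set C := be * t2 + al2 with hC
  have hA0 : 0 ≤ A := by linarith
  have hC0 : 0 ≤ C := by positivity
  have hAC : (be * (√t1 * √t2)) ^ 2 ≤ A * C := by
    have : (be * (√t1 * √t2)) ^ 2 = be ^ 2 * t1 * t2 := by
      rw [mul_pow, mul_pow, e1, e2]; ring
    rw [this, hA, hC]
    nlinarith
  have key : al2 * a2 ^ 2 - al1 * a1 ^ 2 + be * (√t1 * a1 - √t2 * a2) ^ 2 =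
      A * a1 ^ 2 - 2 * (be * (√t1 * √t2)) * (a1 * a2) + C * a2 ^ 2 := by
    rw [hA, hC]
    have : (√t1 * a1 - √t2 * a2) ^ 2 = t1 * a1 ^ 2 - 2 * (√t1 * √t2) * (a1 * a2) + t2 * a2 ^ 2 := by
      have : (√t1 * a1 - √t2 * a2) ^ 2 =
        √t1 ^ 2 * a1 ^ 2 - 2 * (√t1 * √t2) * (a1 * a2) + √t2 ^ 2 * a2 ^ 2 := by ring
      rw [this, e1, e2]
    rw [this]; ring
  rw [key]
  rcases eq_or_lt_of_le hA0 with h | h
  · have hb : be * (√t1 * √t2) = 0 := by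
      have : (be * (√t1 * √t2)) ^ 2 ≤ 0 := by rw [← h] at hAC; simpa using hAC
      nlinarith [sq_nonneg (be * (√t1 * √t2))]
    rw [hb, ← h]
    have := mul_nonneg hC0 (sq_nonneg a2)
    nlinarith
  · have : 0 ≤ A * (A * a1 ^ 2 - 2 * (be * (√t1 * √t2)) * (a1 * a2) + C * a2 ^ 2) := by
      have e : A * (A * a1 ^ 2 - 2 * (be * (√t1 * √t2)) * (a1 * a2) + C * a2 ^ 2) =
        (A * a1 - be * (√t1 * √t2) * a2) ^ 2 + (A * C - (be * (√t1 * √t2)) ^ 2) * a2 ^ 2 := by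
        ring
      rw [e]
      have := mul_nonneg (sub_nonneg.2 hAC) (sq_nonneg a2)
      positivity
    exact nonneg_of_mul_nonneg_right this h

/-- HQ when the first is the larger -/
lemma hq_aux {q : ℝ} (h1 : 1 < q) (h2 : q ≤ 2) {x1 x2 t1 t2 : ℝ} (hx1 : 0 ≤ x1) (hx2 : 0 ≤ x2)
    (ht1 : 0 ≤ t1) (ht2 : 0 ≤ t2) (ht : t1 + t2 ≤ 1) (hb : 1 / 2 < t1) :
    (q - 1) * 2 ^ (2 / q - 1) * (x1 * t1 ^ (2 / q - 1) + x2 * t2 ^ (2 / q - 1)) ≤
    (q - 1) * (x1 + x2) + (2 - q) * (√(x1 * t1) - √(x2 * t2)) ^ 2 := by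
  set k : ℝ := 2 / q - 1 with hk
  have hq0 : 0 < q := by linarith
  have hk0 : 0 ≤ k := by rw [hk, sub_nonneg, le_div_iff₀ hq0]; linarith
  have hk1 : k ≤ 1 := by
    rw [hk]
    have : 2 / q ≤ 2 := by rw [div_le_iff₀ hq0]; linarith
    linarith
  have hbe : 2 - q = k * q := by rw [hk]; field_simp
  have e1 : (2 : ℝ) ^ k * t1 ^ k = (2 * t1) ^ k := (Real.mul_rpow (by norm_num) ht1).symm
  have e2 : (2 : ℝ) ^ k * t2 ^ k = (2 * t2) ^ k := (Real.mul_rpow (by norm_num) ht2).symm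
  have b1 : (2 * t1) ^ k ≤ 1 + k * (2 * t1 - 1) := by
    have := rpow_one_add_le_one_add_mul_self (s := 2 * t1 - 1) (by linarith) hk0 hk1
    rw [show (1 : ℝ) + (2 * t1 - 1) = 2 * t1 by ring] at this
    exact this
  have b2 : (2 * t2) ^ k ≤ 1 + k * (2 * t2 - 1) := by
    have := rpow_one_add_le_one_add_mul_self (s := 2 * t2 - 1) (by linarith) hk0 hk1
    rw [show (1 : ℝ) + (2 * t2 - 1) = 2 * t2 by ring] at this
    exact this
  set al1 : ℝ := (q - 1) * (k * (2 * t1 - 1)) with hal1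
  set al2 : ℝ := (q - 1) * (k * (1 - 2 * t2)) with hal2
  have hal2' : 0 ≤ al2 := by
    apply mul_nonneg (by linarith)
    apply mul_nonneg hk0
    linarith
  have hal1' : 0 ≤ al1 := by
    apply mul_nonneg (by linarith)
    apply mul_nonneg hk0
    linarith
  have hf := form (al1 := al1) (al2 := al2) (be := 2 - q) (t1 := t1) (t2 := t2) (a1 := √x1)
    (a2 := √x2) hal2' (by linarith) ht1 ht2 ?_ ?_
  · have s1 : √x1 ^ 2 = x1 := Real.sq_sqrt hx1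
    have s2 : √x2 ^ 2 = x2 := Real.sq_sqrt hx2
    have s3 : √(x1 * t1) = √t1 * √x1 := by rw [mul_comm, Real.sqrt_mul ht1]
    have s4 : √(x2 * t2) = √t2 * √x2 := by rw [mul_comm, Real.sqrt_mul ht2]
    rw [s1, s2] at hf
    rw [s3, s4]
    have c1 : (q - 1) * 2 ^ k * (x1 * t1 ^ k + x2 * t2 ^ k) =
        (q - 1) * (x1 * (2 * t1) ^ k + x2 * (2 * t2) ^ k) := by
      rw [← e1, ← e2]; ring
    rw [c1]
    have c2 := mul_le_mul_of_nonneg_left b1 hx1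
    have c3 := mul_le_mul_of_nonneg_left b2 hx2
    have c4 : (q - 1) * (x1 * (2 * t1) ^ k + x2 * (2 * t2) ^ k) ≤
        (q - 1) * (x1 * (1 + k * (2 * t1 - 1)) + x2 * (1 + k * (2 * t2 - 1))) :=
      mul_le_mul_of_nonneg_left (add_le_add c2 c3) (by linarith)
    refine c4.trans ?_
    rw [hal1, hal2] at hf
    nlinarith
  · rw [hbe, hal1]
    nlinarith [mul_nonneg hk0 ht1, mul_nonneg hk0 hq0.le, mul_nonneg hk0 (sub_nonneg.2 h1.le),
      mul_nonneg hk0 (sub_nonneg.2 h2), mul_nonneg (mul_nonneg hk0 (sub_nonneg.2 h2)) ht1]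
  · rw [hbe, hal1, hal2]
    -- al1 al2 + al1 be t2 <= be t1 al2
    have hq1 : 0 < q - 1 := by linarith
    have hE : 0 ≤ 2 * t1 - 1 := by linarith
    have hF : 2 * t1 - 1 ≤ 1 - 2 * t2 := by linarith
    have hG : 0 ≤ 1 - 2 * t2 := by linarith
    have h0 : (q - 1) * ((2 * t1 - 1) * (1 - 2 * t2)) + q * ((2 * t1 - 1) * t2) ≤
        q * (t1 * (1 - 2 * t2)) := by
      nlinarith [mul_nonneg hE hG, mul_nonneg hG ht2, mul_nonneg hE ht2]
    have h3 := mul_le_mul_of_nonneg_left h0 (mul_nonneg hq1.le (mul_nonneg hk0 hk0))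
    nlinarith

/-- Bernoulli for exponents between minus one and zero -/
lemma bern {k y : ℝ} (hk0 : 0 ≤ k) (hk1 : k ≤ 1) (hy : 0 < y) :
    1 - k * (y - 1) ≤ y ^ (-k) := by
  have h1 : y ^ k ≤ 1 + k * (y - 1) := by
    have := rpow_one_add_le_one_add_mul_self (s := y - 1) (by linarith) hk0 hk1
    rw [show (1 : ℝ) + (y - 1) = y by ring] at this
    exact this
  have h2 : 0 < y ^ k := Real.rpow_pos_of_pos hy k
  rw [Real.rpow_neg hy.le]
  rcases le_or_gt (1 - k * (y - 1)) 0 with h | h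
  · exact h.trans (inv_nonneg.2 h2.le)
  · have h3 : y ^ k * (1 - k * (y - 1)) ≤ 1 := by
      have := mul_le_mul_of_nonneg_right h1 h.le
      nlinarith [sq_nonneg (k * (y - 1))]
    rw [inv_eq_one_div, le_div_iff₀ h2]
    linarith

/-- HP when the first is the larger -/
lemma hp_aux {p : ℝ} (h2 : 2 ≤ p) {x1 x2 t1 t2 : ℝ} (hx1 : 0 ≤ x1) (hx2 : 0 ≤ x2)
    (ht1 : 0 ≤ t1) (ht2 : 0 ≤ t2) (ht : t1 + t2 ≤ 1) (hb : 1 / 2 < t1) (h0 : t2 = 0 → x2 = 0) :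
    (p - 1) * (x1 + x2) - (p - 2) * (√(x1 * t1) - √(x2 * t2)) ^ 2 ≤
    (p - 1) * 2 ^ (2 / p - 1) * (x1 * t1 ^ (2 / p - 1) + x2 * t2 ^ (2 / p - 1)) := by
  obtain ⟨k, hk⟩ : ∃ k : ℝ, k = 1 - 2 / p := ⟨_, rfl⟩
  have hkk : 2 / p - 1 = -k := by rw [hk]; ring
  rw [hkk]
  have hp0 : 0 < p := by linarith
  have hk0 : 0 ≤ k := by rw [hk, sub_nonneg, div_le_iff₀ hp0]; linarith
  have hk1 : k ≤ 1 := by
    rw [hk]
    have : 0 ≤ 2 / p := by positivity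
    linarith
  have hbe : p - 2 = k * p := by rw [hk]; field_simp
  have ht1' : 0 < t1 := by linarith
  have e1 : (2 : ℝ) ^ (-k) * t1 ^ (-k) = (2 * t1) ^ (-k) :=
    (Real.mul_rpow (by norm_num) ht1).symm
  have e2 : (2 : ℝ) ^ (-k) * t2 ^ (-k) = (2 * t2) ^ (-k) :=
    (Real.mul_rpow (by norm_num) ht2).symm
  have b1 : 1 - k * (2 * t1 - 1) ≤ (2 * t1) ^ (-k) := bern hk0 hk1 (by linarith)
  have b2 : x2 * (1 - k * (2 * t2 - 1)) ≤ x2 * (2 * t2) ^ (-k) := by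
    rcases eq_or_lt_of_le ht2 with h | h
    · rw [h0 h.symm]; simp
    · exact mul_le_mul_of_nonneg_left (bern hk0 hk1 (by linarith)) hx2
  set al1 : ℝ := (p - 1) * (k * (2 * t1 - 1)) with hal1
  set al2 : ℝ := (p - 1) * (k * (1 - 2 * t2)) with hal2
  have hal2' : 0 ≤ al2 := by
    apply mul_nonneg (by linarith)
    apply mul_nonneg hk0
    linarith
  have hf := form (al1 := al1) (al2 := al2) (be := p - 2) (t1 := t1) (t2 := t2) (a1 := √x1)
    (a2 := √x2) hal2' (by linarith) ht1 ht2 ?_ ?_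
  · have s1 : √x1 ^ 2 = x1 := Real.sq_sqrt hx1
    have s2 : √x2 ^ 2 = x2 := Real.sq_sqrt hx2
    have s3 : √(x1 * t1) = √t1 * √x1 := by rw [mul_comm, Real.sqrt_mul ht1]
    have s4 : √(x2 * t2) = √t2 * √x2 := by rw [mul_comm, Real.sqrt_mul ht2]
    rw [s1, s2] at hf
    rw [s3, s4]
    have c1 : (p - 1) * 2 ^ (-k) * (x1 * t1 ^ (-k) + x2 * t2 ^ (-k)) =
        (p - 1) * (x1 * (2 * t1) ^ (-k) + x2 * (2 * t2) ^ (-k)) := by
      rw [← e1, ← e2]; ring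
    rw [c1]
    have c2 := mul_le_mul_of_nonneg_left b1 hx1
    have c4 : (p - 1) * (x1 * (1 - k * (2 * t1 - 1)) + x2 * (1 - k * (2 * t2 - 1))) ≤
        (p - 1) * (x1 * (2 * t1) ^ (-k) + x2 * (2 * t2) ^ (-k)) :=
      mul_le_mul_of_nonneg_left (add_le_add c2 b2) (by linarith)
    refine le_trans ?_ c4
    rw [hal1, hal2] at hf
    nlinarith
  · rw [hbe, hal1]
    have h3 : (p - 1) * (2 * t1 - 1) ≤ p * t1 := by nlinarith
    have := mul_le_mul_of_nonneg_left h3 hk0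
    nlinarith
  · rw [hbe, hal1, hal2]
    have hq1 : 0 < p - 1 := by linarith
    have hE : 0 ≤ 2 * t1 - 1 := by linarith
    have hF : 2 * t1 - 1 ≤ 1 - 2 * t2 := by linarith
    have hG : 0 ≤ 1 - 2 * t2 := by linarith
    have h0 : (p - 1) * ((2 * t1 - 1) * (1 - 2 * t2)) + p * ((2 * t1 - 1) * t2) ≤
        p * (t1 * (1 - 2 * t2)) := by
      nlinarith [mul_nonneg hE hG, mul_nonneg hG ht2, mul_nonneg hE ht2]
    have h3 := mul_le_mul_of_nonneg_left h0 (mul_nonneg hq1.le (mul_nonneg hk0 hk0))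
    nlinarith

end Pool.Agent.RHC.Fx

namespace Pool.Agent.RHC

open Fx

theorem hq : HQ := by
  intro q h1 h2 x1 x2 t1 t2 hx1 hx2 ht1 ht2 ht
  rcases lt_or_ge (1 / 2) t1 with hb | hb
  · exact hq_aux h1 h2 hx1 hx2 ht1 ht2 ht hb
  rcases lt_or_ge (1 / 2) t2 with hc | hc
  · have := hq_aux h1 h2 hx2 hx1 ht2 ht1 (by linarith) hc
    have e : (√(x1 * t1) - √(x2 * t2)) ^ 2 = (√(x2 * t2) - √(x1 * t1)) ^ 2 := by ring
    rw [e]
    linarith
  have hq0 : 0 < q := by linarith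
  have hk0 : 0 ≤ 2 / q - 1 := by rw [sub_nonneg, le_div_iff₀ hq0]; linarith
  have a1 : (2 : ℝ) ^ (2 / q - 1) * t1 ^ (2 / q - 1) ≤ 1 := by
    rw [← Real.mul_rpow (by norm_num) ht1]
    exact Real.rpow_le_one (by positivity) (by linarith) hk0
  have a2 : (2 : ℝ) ^ (2 / q - 1) * t2 ^ (2 / q - 1) ≤ 1 := by
    rw [← Real.mul_rpow (by norm_num) ht2]
    exact Real.rpow_le_one (by positivity) (by linarith) hk0
  have a3 := mul_le_mul_of_nonneg_left a1 hx1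
  have a4 := mul_le_mul_of_nonneg_left a2 hx2
  have a5 := mul_nonneg (sub_nonneg.2 h2) (sq_nonneg (√(x1 * t1) - √(x2 * t2)))
  have a6 : (q - 1) * (x1 * (2 ^ (2 / q - 1) * t1 ^ (2 / q - 1)) +
      x2 * (2 ^ (2 / q - 1) * t2 ^ (2 / q - 1))) ≤ (q - 1) * (x1 + x2) :=
    mul_le_mul_of_nonneg_left (by linarith) (by linarith)
  nlinarith

theorem hp : HP := by
  intro p h2 x1 x2 t1 t2 hx1 hx2 ht1 ht2 ht h01 h02
  rcases lt_or_ge (1 / 2) t1 with hb | hb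
  · exact hp_aux h2 hx1 hx2 ht1 ht2 ht hb h02
  rcases lt_or_ge (1 / 2) t2 with hc | hc
  · have := hp_aux h2 hx2 hx1 ht2 ht1 (by linarith) hc h01
    have e : (√(x1 * t1) - √(x2 * t2)) ^ 2 = (√(x2 * t2) - √(x1 * t1)) ^ 2 := by ring
    rw [e]
    linarith
  have hp0 : 0 < p := by linarith
  have hk0 : 2 / p - 1 ≤ 0 := by rw [sub_nonpos, div_le_iff₀ hp0]; linarith
  have a1 : x1 ≤ x1 * ((2 : ℝ) ^ (2 / p - 1) * t1 ^ (2 / p - 1)) := by
    rcases eq_or_lt_of_le ht1 with h | h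
    · rw [h01 h.symm]; simp
    · rw [← Real.mul_rpow (by norm_num) ht1]
      have := Real.one_le_rpow_of_pos_of_le_one_of_nonpos (x := 2 * t1) (by linarith)
        (by linarith) hk0
      nlinarith
  have a2 : x2 ≤ x2 * ((2 : ℝ) ^ (2 / p - 1) * t2 ^ (2 / p - 1)) := by
    rcases eq_or_lt_of_le ht2 with h | h
    · rw [h02 h.symm]; simp
    · rw [← Real.mul_rpow (by norm_num) ht2]
      have := Real.one_le_rpow_of_pos_of_le_one_of_nonpos (x := 2 * t2) (by linarith)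
        (by linarith) hk0
      nlinarith
  have a5 := mul_nonneg (sub_nonneg.2 h2) (sq_nonneg (√(x1 * t1) - √(x2 * t2)))
  have a6 : (p - 1) * (x1 + x2) ≤ (p - 1) * (x1 * (2 ^ (2 / p - 1) * t1 ^ (2 / p - 1)) +
      x2 * (2 ^ (2 / p - 1) * t2 ^ (2 / p - 1))) :=
    mul_le_mul_of_nonneg_left (by linarith) (by linarith)
  nlinarith

end Pool.Agent.RHC
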